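import Pool.Agent.J6H2.NP.Cnt

set_option autoImplicit false
set_option linter.all false

/-! Large generalized eigenspaces on average. -/

namespace Pool.Agent.J6H2.NP

open Finset Polynomial Pool.Agent.N430.BP.FF

section
variable {k : Type} [Field k] [Fintype k]

open Classical in
/-- the pairs with many eigenvalues near a point -/
noncomputable def many (N : ℕ) (t : k[X] → k[X] × k[X] → ℂ) (G κ : ℝ) (z : ℂ)
    (R : ℕ) : Finset (VV k N) :=
  univ.filter fun v : VV k N => ∃ (E : ED (fun P => t P ((v.1 : k[X]), (v.2 : k[X]))) G (κ * N))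
    (S : Finset (Fin E.D)), (∀ i ∈ S, ‖E.u i - z‖ ≤ 1 / N) ∧ R ≤ #S

/-- **Markov.** -/
lemma markov {t : k[X] → k[X] × k[X] → ℂ} {n₀ : ℝ} (ht : Sys t n₀) (hn₀ : 0 < n₀) {z : ℂ}
    (hz : ‖z‖ = 1) {M N m : ℕ}
    (hm : 1 ≤ m) (hN : (2 * m + 1) * M ≤ N) {R : ℝ} (hR : 0 < R) (s : Finset (VV k N))
    (hs : ∀ v ∈ s, R / 2 ≤ TT (fun P => t P ((v.1 : k[X]), (v.2 : k[X]))) M z) :
    (#s : ℝ) ≤ (3072 * n₀ ^ 2 * m / R ^ 2) ^ m * (Fintype.card k : ℝ) ^ (2 * N) := by
  have h1 := TT_moment ht hn₀ hz hm hN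
  have h4 : (#s : ℝ) * (R / 2) ^ (2 * m) ≤
      ∑ v : VV k N, TT (fun P => t P ((v.1 : k[X]), (v.2 : k[X]))) M z ^ (2 * m) := by
    calc (#s : ℝ) * (R / 2) ^ (2 * m) = ∑ v ∈ s, (R / 2) ^ (2 * m) := by
          rw [Finset.sum_const, nsmul_eq_mul]
      _ ≤ ∑ v ∈ s, TT (fun P => t P ((v.1 : k[X]), (v.2 : k[X]))) M z ^ (2 * m) :=
          Finset.sum_le_sum fun v hv => pow_le_pow_left₀ (by positivity) (hs v hv) _
      _ ≤ _ := Finset.sum_le_sum_of_subset_of_nonneg (subset_univ _) fun v _ _ => by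
          rw [pow_mul]
          positivity
  have h5 := h4.trans h1
  have h6 : (0 : ℝ) < (R / 2) ^ (2 * m) := by positivity
  rw [← le_div_iff₀ h6] at h5
  refine h5.trans (le_of_eq ?_)
  have h7 : (R / 2) ^ (2 * m) = (R ^ 2 / 4) ^ m := by
    rw [pow_mul]
    congr 1
    ring
  rw [h7, mul_div_right_comm, ← div_pow]
  congr 2
  field_simp
  ring

end

/-- **The tail of the number of eigenvalues near a point.** -/
theorem main_rt (n₀ : ℕ) (h3 : 3 ≤ n₀) {κ : ℝ} (hκ : 1 ≤ κ) :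
    ∃ c C : ℝ, 0 < c ∧ 0 < C ∧ ∀ (k : Type) [Field k] [Fintype k],
      ∀ N : ℕ, 1 ≤ N → ∀ (t : k[X] → k[X] × k[X] → ℂ), Sys t (n₀ : ℝ) → ∀ G : ℝ, 0 ≤ G → G ≤ 2 * n₀ →
      ∀ z : ℂ, ‖z‖ = 1 → ∀ R : ℕ, 1 ≤ R →
        (#(many N t G κ z R) : ℝ) ≤ C * (R : ℝ) ^ (-(c * R)) * (Fintype.card k : ℝ) ^ (2 * N) := by
  classical
  have hn : (3 : ℝ) ≤ n₀ := by exact_mod_cast h3
  set a : ℝ := (36 + 32 * n₀) * κ with ha
  have ha1 : 36 + 32 * (n₀ : ℝ) ≤ a := by
    rw [ha]
    nlinarith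
  have ha0 : 0 < a := by linarith
  set R0 : ℝ := 8 * a + 144 * (n₀ : ℝ) ^ 2 with hR0
  have hR01 : 1 ≤ R0 := by nlinarith
  set c : ℝ := 1 / (32 * a) with hc
  have hc0 : 0 < c := by positivity
  have hC1 : 1 ≤ R0 ^ (c * R0) := Real.one_le_rpow hR01 (by positivity)
  refine ⟨c, R0 ^ (c * R0), hc0, by linarith, ?_⟩
  intro k _ _ N hN t ht G hG0 hG z hz R hR
  have hRr : (1 : ℝ) ≤ R := by exact_mod_cast hR
  have hq0 : (0 : ℝ) < (Fintype.card k : ℝ) ^ (2 * N) := by
    have : (0 : ℝ) < Fintype.card k := by exact_mod_cast Fintype.card_pos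
    positivity
  have htriv : (#(many N t G κ z R) : ℝ) ≤ (Fintype.card k : ℝ) ^ (2 * N) := by
    have h1 : #(many N t G κ z R) ≤ Fintype.card (VV k N) := by
      rw [← card_univ]
      exact Finset.card_le_card (subset_univ _)
    rw [card_VV] at h1
    exact_mod_cast h1
  by_cases hRR : (R : ℝ) < R0
  · have h1 : (R : ℝ) ^ (c * R) ≤ R0 ^ (c * R0) := by
      calc (R : ℝ) ^ (c * R) ≤ R0 ^ (c * R) :=
            Real.rpow_le_rpow (by linarith) hRR.le (by positivity)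
        _ ≤ R0 ^ (c * R0) := Real.rpow_le_rpow_of_exponent_le hR01
            (mul_le_mul_of_nonneg_left hRR.le hc0.le)
    have h4 : 1 ≤ R0 ^ (c * R0) * (R : ℝ) ^ (-(c * R)) := by
      rw [Real.rpow_neg (by linarith), ← div_eq_mul_inv, one_le_div (by positivity)]
      exact h1
    nlinarith
  push Not at hRR
  -- the main case
  have hRa : 8 * a ≤ R := by
    have : (0 : ℝ) ≤ 144 * (n₀ : ℝ) ^ 2 := by positivity
    linarith
  set y : ℝ := R / (8 * a) with hy
  have hy1 : 1 ≤ y := by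
    rw [hy, one_le_div (by positivity)]
    exact hRa
  set m : ℕ := ⌊y⌋₊ with hm
  have hmy : (m : ℝ) ≤ y := Nat.floor_le (by linarith)
  have hm1 : 1 ≤ m := by
    rw [hm, Nat.le_floor_iff (by linarith)]
    exact_mod_cast hy1
  have hm1' : (1 : ℝ) ≤ m := by exact_mod_cast hm1
  have hmy2 : y / 2 ≤ m := by
    have h1 : y < m + 1 := Nat.lt_floor_add_one y
    linarith
  set M : ℕ := N / (2 * m + 1) with hM
  have hMN : (2 * m + 1) * M ≤ N := Nat.mul_div_le N (2 * m + 1)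
  have hMN2 : N < (2 * m + 1) * (M + 1) := by
    rw [hM, mul_add, mul_one]
    exact Nat.lt_mul_div_succ N (by omega)
  have hMN3 : (N : ℝ) ≤ (2 * m + 1) * (M + 1) := by exact_mod_cast hMN2.le
  have hNr : (1 : ℝ) ≤ N := by exact_mod_cast hN
  have hMle : (M : ℝ) ≤ N := by
    have : M ≤ N := Nat.div_le_self _ _
    exact_mod_cast this
  have hMδ : (M : ℝ) * (1 / N) ≤ 1 := by
    rw [mul_one_div, div_le_one (by linarith)]
    exact hMle
  have hya : a * y = R / 8 := by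
    rw [hy]
    field_simp
  have hs : ∀ v ∈ many N t G κ z R, (R : ℝ) / 2 ≤ TT (fun P => t P ((v.1 : k[X]), (v.2 : k[X]))) M z := by
    intro v hv
    unfold many at hv
    rw [mem_filter] at hv
    obtain ⟨_, E, S, hS, hRS⟩ := hv
    have h4 := count_main E (by positivity) hG0 hz hMδ S hS
    have h5 : (R : ℝ) ≤ #S := by exact_mod_cast hRS
    have h6 : κ * N / ((M : ℝ) + 1) ≤ κ * (2 * m + 1) := by
      rw [div_le_iff₀ (by positivity), mul_assoc]
      exact mul_le_mul_of_nonneg_left hMN3 (by linarith)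
    have h7 : (36 + 32 * (n₀ : ℝ)) * (κ * N / (M + 1)) ≤ a * (2 * m + 1) := by
      rw [ha, mul_assoc]
      exact mul_le_mul_of_nonneg_left h6 (by positivity)
    have h8 : 0 ≤ κ * N / ((M : ℝ) + 1) := by positivity
    have h8' : (0 : ℝ) ≤ 32 * n₀ := by positivity
    have h7' : 36 * (κ * N / ((M : ℝ) + 1)) ≤ a * (2 * m + 1) := by nlinarith
    have h9 : a * m ≤ R / 8 := by
      rw [← hya]
      exact mul_le_mul_of_nonneg_left hmy ha0.le
    nlinarith
  have key := markov ht (by positivity) hz hm1 hMN (R := R) (by linarith) _ hs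
  have h4 : 3072 * (n₀ : ℝ) ^ 2 * m / (R : ℝ) ^ 2 ≤ (R : ℝ) ^ (-(1 / 2 : ℝ)) := by
    have h5 : 12 * (n₀ : ℝ) ≤ √(R : ℝ) := by
      apply Real.le_sqrt_of_sq_le
      have h6 : (12 * (n₀ : ℝ)) ^ 2 = 144 * (n₀ : ℝ) ^ 2 := by ring
      rw [h6]
      linarith
    have h6 : (R : ℝ) ^ (-(1 / 2 : ℝ)) = (√(R : ℝ))⁻¹ := by
      rw [Real.rpow_neg (by linarith), Real.sqrt_eq_rpow]
    rw [h6]
    have hs0 : 0 < √(R : ℝ) := Real.sqrt_pos.2 (by linarith)
    have hs2 : √(R : ℝ) ^ 2 = R := Real.sq_sqrt (by linarith)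
    rw [div_le_iff₀ (by positivity)]
    have h7 : (√(R : ℝ))⁻¹ * (R : ℝ) ^ 2 = √(R : ℝ) * R := by
      have : (R : ℝ) ^ 2 = √(R : ℝ) * (√(R : ℝ) * R) := by
        rw [← mul_assoc, ← sq, hs2]
        ring
      rw [this, ← mul_assoc, inv_mul_cancel₀ hs0.ne', one_mul]
    rw [h7]
    have h8 : 32 * (n₀ : ℝ) * m ≤ R / 8 := by
      have h9 : 32 * (n₀ : ℝ) * m ≤ a * m := mul_le_mul_of_nonneg_right (by linarith) (by linarith)
      have h10 : a * m ≤ R / 8 := by
        rw [← hya]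
        exact mul_le_mul_of_nonneg_left hmy ha0.le
      linarith
    calc 3072 * (n₀ : ℝ) ^ 2 * m = (12 * n₀) * (8 * (32 * n₀ * m)) := by ring
      _ ≤ √(R : ℝ) * (8 * (R / 8)) :=
          mul_le_mul h5 (by linarith) (by positivity) hs0.le
      _ = _ := by ring
  have h5 : (3072 * (n₀ : ℝ) ^ 2 * m / (R : ℝ) ^ 2) ^ m ≤ (R : ℝ) ^ (-(c * R)) := by
    calc (3072 * (n₀ : ℝ) ^ 2 * m / (R : ℝ) ^ 2) ^ m ≤ ((R : ℝ) ^ (-(1 / 2 : ℝ))) ^ m :=
          pow_le_pow_left₀ (by positivity) h4 m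
      _ = (R : ℝ) ^ (-(1 / 2 : ℝ) * m) := by
          rw [← Real.rpow_natCast, ← Real.rpow_mul (by linarith)]
      _ ≤ (R : ℝ) ^ (-(c * R)) := by
          apply Real.rpow_le_rpow_of_exponent_le hRr
          have h6 : c * R = y / 4 := by
            rw [hc, hy]
            field_simp
            ring
          rw [h6]
          linarith
  calc (#(many N t G κ z R) : ℝ) ≤
      (3072 * (n₀ : ℝ) ^ 2 * m / (R : ℝ) ^ 2) ^ m * (Fintype.card k : ℝ) ^ (2 * N) := key
    _ ≤ (R : ℝ) ^ (-(c * R)) * (Fintype.card k : ℝ) ^ (2 * N) :=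
        mul_le_mul_of_nonneg_right h5 hq0.le
    _ ≤ R0 ^ (c * R0) * (R : ℝ) ^ (-(c * R)) * (Fintype.card k : ℝ) ^ (2 * N) := by
        refine mul_le_mul_of_nonneg_right ?_ hq0.le
        have : (0 : ℝ) < (R : ℝ) ^ (-(c * R)) := by positivity
        nlinarith

/-- the indices of the eigenvalues of multiplicity at least `R` -/
noncomputable def bigIdx {k : Type} [Field k] [Fintype k] {t : k[X] → ℂ} {G K : ℝ}
    (E : ED t G K) (R : ℕ) : Finset (Fin E.D) :=
  open Classical in univ.filter fun i => R ≤ #(univ.filter fun j => E.u j = E.u i)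

/-- the indices of the eigenvalues near a point -/
noncomputable def nearIdx {k : Type} [Field k] [Fintype k] {t : k[X] → ℂ} {G K : ℝ}
    (E : ED t G K) (N : ℕ) (z : ℂ) : Finset (Fin E.D) :=
  open Classical in univ.filter fun i => ‖E.u i - z‖ ≤ 1 / N

lemma big_le {k : Type} [Field k] [Fintype k] {t : k[X] → ℂ} {G K : ℝ}
    (E : ED t G K) {N : ℕ} (hN : 1 ≤ N) (R : ℕ) {L : ℕ} (hL : E.D ≤ L) :
    #(bigIdx E R) ≤ ∑ j ∈ range (7 * N), ∑ r ∈ Icc 1 L,
      if max r R ≤ #(nearIdx E N (pt N j)) then 1 else 0 := by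
  classical
  have h1 : bigIdx E R ⊆ (range (7 * N)).biUnion fun j =>
      if R ≤ #(nearIdx E N (pt N j)) then nearIdx E N (pt N j) else ∅ := by
    intro i hi
    unfold bigIdx at hi
    rw [mem_filter] at hi
    obtain ⟨j, hj, hj2⟩ := near_point (E.hu i) hN
    rw [mem_biUnion]
    refine ⟨j, hj, ?_⟩
    have h2 : R ≤ #(nearIdx E N (pt N j)) := by
      refine hi.2.trans (card_le_card fun i' hi' => ?_)
      unfold nearIdx
      rw [mem_filter] at hi' ⊢
      refine ⟨mem_univ _, ?_⟩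
      rw [hi'.2]
      exact hj2
    rw [if_pos h2]
    unfold nearIdx
    rw [mem_filter]
    exact ⟨mem_univ _, hj2⟩
  refine (card_le_card h1).trans (card_biUnion_le.trans (sum_le_sum fun j _ => ?_))
  split_ifs with h
  · rw [← sum_filter, sum_const, smul_eq_mul, mul_one]
    have h3 : Icc 1 #(nearIdx E N (pt N j)) ⊆
        (Icc 1 L).filter fun r => max r R ≤ #(nearIdx E N (pt N j)) := by
      intro r hr
      rw [mem_Icc] at hr
      rw [mem_filter, mem_Icc]
      refine ⟨⟨hr.1, hr.2.trans ?_⟩, max_le hr.2 h⟩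
      refine (card_le_univ _).trans ?_
      rw [Fintype.card_fin]
      exact hL
    have h4 := card_le_card h3
    rwa [Nat.card_Icc, Nat.add_sub_cancel] at h4
  · rw [card_empty]
    exact Nat.zero_le _

/-- **The large generalized eigenspaces.** -/
theorem mult_avg (n₀ : ℕ) (h3 : 3 ≤ n₀) {κ : ℝ} (hκ : 1 ≤ κ) :
    ∃ c C : ℝ, 0 < c ∧ 0 < C ∧ ∀ (k : Type) [Field k] [Fintype k],
      ∀ N : ℕ, 1 ≤ N → ∀ (t : k[X] → k[X] × k[X] → ℂ), Sys t (n₀ : ℝ) → ∀ G : ℝ, 0 ≤ G → G ≤ 2 * n₀ →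
      ∀ R : ℕ, 1 ≤ R → ∀ (T : Type) [Fintype T] (w : T → VV k N) (_ : Function.Injective w)
        (E : ∀ v : T, ED (fun P => t P (((w v).1 : k[X]), ((w v).2 : k[X]))) G (κ * N)),
        (∑ v : T, (#(bigIdx (E v) R) : ℝ)) ≤
          C * (R : ℝ) ^ (-(c * R)) * N * (Fintype.card k : ℝ) ^ (2 * N) := by
  classical
  obtain ⟨c, C, hc, hC, H⟩ := main_rt n₀ h3 hκ
  have ha : 0 < c / 2 := by positivity
  set S : ℝ := ∑' r : ℕ, (r : ℝ) ^ (-(c / 2 * r)) with hS
  have hS0 : 0 < S := by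
    have h1 := (summ ha).sum_le_tsum {1} (fun r _ => by positivity)
    rw [sum_singleton, Nat.cast_one, Real.one_rpow] at h1
    rw [hS]
    linarith
  refine ⟨c / 2, 7 * C * S, ha, by positivity, ?_⟩
  intro k _ _ N hN t ht G hG0 hG R hR T _ w hw E
  set L : ℕ := ⌊κ * N⌋₊ with hL
  have hLD : ∀ v : T, (E v).D ≤ L := fun v => Nat.le_floor (E v).hD
  have hRr : (1 : ℝ) ≤ R := by exact_mod_cast hR
  have hq0 : (0 : ℝ) < (Fintype.card k : ℝ) ^ (2 * N) := by
    have : (0 : ℝ) < Fintype.card k := by exact_mod_cast Fintype.card_pos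
    positivity
  calc (∑ v : T, (#(bigIdx (E v) R) : ℝ)) ≤
      ∑ v : T, ∑ j ∈ range (7 * N), ∑ r ∈ Icc 1 L,
        if max r R ≤ #(nearIdx (E v) N (pt N j)) then (1 : ℝ) else 0 := by
        refine sum_le_sum fun v _ => ?_
        have := big_le (E v) hN R (hLD v)
        exact_mod_cast this
    _ = ∑ j ∈ range (7 * N), ∑ r ∈ Icc 1 L, ∑ v : T,
        if max r R ≤ #(nearIdx (E v) N (pt N j)) then (1 : ℝ) else 0 := by
        rw [sum_comm]
        refine sum_congr rfl fun j _ => sum_comm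
    _ ≤ ∑ j ∈ range (7 * N), ∑ r ∈ Icc 1 L,
        C * (R : ℝ) ^ (-(c / 2 * R)) * (Fintype.card k : ℝ) ^ (2 * N) * (r : ℝ) ^ (-(c / 2 * r)) := by
        refine sum_le_sum fun j _ => sum_le_sum fun r hr => ?_
        rw [mem_Icc] at hr
        have hr1 : (1 : ℝ) ≤ r := by exact_mod_cast hr.1
        have h4 : (∑ v : T, if max r R ≤ #(nearIdx (E v) N (pt N j)) then (1 : ℝ) else 0) ≤
            #(many N t G κ (pt N j) (max r R)) := by
          rw [← sum_filter, sum_const, nsmul_eq_mul, mul_one]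
          have h5 : #((univ : Finset T).filter fun v => max r R ≤ #(nearIdx (E v) N (pt N j))) ≤
              #(many N t G κ (pt N j) (max r R)) := by
            refine card_le_card_of_injOn w ?_ ?_
            · intro v hv
              rw [mem_coe, mem_filter] at hv
              rw [mem_coe]
              unfold many
              rw [mem_filter]
              refine ⟨mem_univ _, E v, nearIdx (E v) N (pt N j), fun i hi => ?_, hv.2⟩
              unfold nearIdx at hi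
              exact (mem_filter.1 hi).2
            · intro v _ v' _ hvw
              exact hw hvw
          exact_mod_cast h5
        have h5 := H k N hN t ht G hG0 hG (pt N j) (pt_norm N j) (max r R) (hR.trans (le_max_right _ _))
        refine h4.trans (h5.trans ?_)
        have h6 : ((max r R : ℕ) : ℝ) ^ (-(c * (max r R : ℕ))) ≤
            (R : ℝ) ^ (-(c / 2 * R)) * (r : ℝ) ^ (-(c / 2 * r)) := by
          set x : ℝ := ((max r R : ℕ) : ℝ) with hx
          have hx1 : (R : ℝ) ≤ x := Nat.cast_le.2 (le_max_right _ _)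
          have hx2 : (r : ℝ) ≤ x := Nat.cast_le.2 (le_max_left _ _)
          have hx0 : 0 < x := by linarith
          have e : x ^ (-(c * x)) = x ^ (-(c / 2 * x)) * x ^ (-(c / 2 * x)) := by
            rw [← Real.rpow_add hx0]
            congr 1
            ring
          rw [e]
          exact mul_le_mul (anti ha hRr hx1) (anti ha hr1 hx2) (by positivity) (by positivity)
        calc C * ((max r R : ℕ) : ℝ) ^ (-(c * (max r R : ℕ))) * (Fintype.card k : ℝ) ^ (2 * N) ≤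
            C * ((R : ℝ) ^ (-(c / 2 * R)) * (r : ℝ) ^ (-(c / 2 * r))) *
              (Fintype.card k : ℝ) ^ (2 * N) :=
              mul_le_mul_of_nonneg_right (mul_le_mul_of_nonneg_left h6 hC.le) hq0.le
          _ = _ := by ring
    _ = 7 * N * (C * (R : ℝ) ^ (-(c / 2 * R)) * (Fintype.card k : ℝ) ^ (2 * N) *
          ∑ r ∈ Icc 1 L, (r : ℝ) ^ (-(c / 2 * r))) := by
        rw [sum_const, card_range, nsmul_eq_mul, ← mul_sum]
        push_cast
        ring
    _ ≤ 7 * N * (C * (R : ℝ) ^ (-(c / 2 * R)) * (Fintype.card k : ℝ) ^ (2 * N) * S) := by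
        refine mul_le_mul_of_nonneg_left ?_ (by positivity)
        refine mul_le_mul_of_nonneg_left ?_ (by positivity)
        exact (summ ha).sum_le_tsum _ (fun r _ => by positivity)
    _ = 7 * C * S * (R : ℝ) ^ (-(c / 2 * R)) * N * (Fintype.card k : ℝ) ^ (2 * N) := by ring

end Pool.Agent.J6H2.NP
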