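import Pool.Agent.N430.BP.FF1
import Pool.Agent.N842.SQ.Pts
import Pool.Agent.N430.RT.A2

set_option autoImplicit false
set_option linter.all false

/-! Auxiliary statements (mostly from the starting library `Pool.Agent.N430`, with fewer imports). -/

namespace Pool.Agent.J6H2.NP

open Finset Polynomial Pool.Agent.N430.BP.FF

section rk
variable {k : Type} [Field k] [Fintype k]

/-- the inverse of the square root of the order of the field -/
noncomputable def rk (k : Type) [Field k] [Fintype k] : ℝ := (√(Fintype.card k : ℝ))⁻¹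

variable (k) in
lemma rk_bounds : 0 < rk k ∧ rk k ≤ 3 / 4 := by
  have h1 : (2 : ℝ) ≤ Fintype.card k := by
    have : 1 < Fintype.card k := Fintype.one_lt_card
    exact_mod_cast this
  unfold rk
  constructor
  · positivity
  · rw [inv_le_comm₀ (by positivity) (by norm_num)]
    apply Real.le_sqrt_of_sq_le
    norm_num
    linarith

variable (k) in
lemma rk_sq : rk k ^ 2 = (Fintype.card k : ℝ)⁻¹ := by
  unfold rk
  rw [inv_pow, Real.sq_sqrt (Nat.cast_nonneg _)]

end rk

section count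
variable (k : Type) [Field k] [Fintype k]

/-- the monic irreducible polynomials of degree `n` -/
noncomputable def IR (n : ℕ) : Finset k[X] := if n = 0 then ∅ else Pool.Agent.N842.SQ.Irr k n

variable {k} in
lemma mem_IR {n : ℕ} {P : k[X]} : P ∈ IR k n ↔ P.Monic ∧ Irreducible P ∧ P.natDegree = n := by
  unfold IR
  split_ifs with h
  · subst h
    simp only [notMem_empty, false_iff]
    rintro ⟨_, hi, h0⟩
    exact hi.natDegree_pos.ne' h0
  · exact Pool.Agent.N842.SQ.mem_Irr k n h P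

lemma card_IR_le {n : ℕ} (hn : n ≠ 0) : (#(IR k n) : ℝ) ≤ (Fintype.card k : ℝ) ^ n / n := by
  have h0 : (0 : ℝ) < n := by exact_mod_cast Nat.pos_of_ne_zero hn
  rw [le_div_iff₀ h0, mul_comm]
  unfold IR
  rw [if_neg hn]
  exact Pool.Agent.N842.SQ.card_Irr_le k n hn

lemma geom_le (x : ℕ) : ∑ n ∈ range x, rk k ^ n ≤ 4 := by
  obtain ⟨r0, r1⟩ := rk_bounds k
  have h1 : ∑ n ∈ range x, rk k ^ n ≤ ∑ n ∈ range x, (3 / 4 : ℝ) ^ n :=
    Finset.sum_le_sum fun n _ => pow_le_pow_left₀ r0.le r1 n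
  have h2 : ∑ n ∈ range x, (3 / 4 : ℝ) ^ n ≤ 4 := by
    have h3 := geom_sum_eq (show (3 / 4 : ℝ) ≠ 1 by norm_num) x
    rw [h3]
    have : (0 : ℝ) ≤ (3 / 4) ^ x := by positivity
    rw [div_le_iff_of_neg (by norm_num)]
    linarith
  exact h1.trans h2

lemma dens_le {n : ℕ} (hn : n ≠ 0) : (#(IR k n) : ℝ) * rk k ^ (2 * n) ≤ 1 / n := by
  have hr : rk k ^ (2 * n) = ((Fintype.card k : ℝ) ^ n)⁻¹ := by rw [pow_mul, rk_sq, inv_pow]
  have hq0 : (0 : ℝ) < Fintype.card k := by exact_mod_cast Fintype.card_pos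
  have hn0 : (0 : ℝ) < n := by exact_mod_cast Nat.pos_of_ne_zero hn
  have h1 := card_IR_le k hn
  rw [hr]
  refine (mul_le_mul_of_nonneg_right h1 (by positivity)).trans (le_of_eq ?_)
  field_simp

end count

section
variable {k : Type} [Field k] [Fintype k]

/-- **Gaussian moments.** -/
theorem moment_sub {X : k[X] → k[X] × k[X] → ℝ} {b : k[X] → ℝ} {x N : ℕ}
    {I : Finset k[X]} (hI : ∀ P ∈ I, P.Monic ∧ Irreducible P ∧ P.natDegree ≤ x ∧ Per P (X P))
    (hb : ∀ P ∈ I, 0 ≤ b P ∧ (∀ v, |X P v| ≤ b P) ∧ mV N (X P) = 0) {m : ℕ} (hm : 1 ≤ m)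
    (hN : (2 * m + 1) * x ≤ N) {V : ℝ} (hV0 : 0 < V) (hV : ∑ Q ∈ I, b Q ^ 2 ≤ V) :
    mV N (fun v => (∑ Q ∈ I, X Q v) ^ (2 * m)) ≤ (12 * m * V) ^ m := by
  have hm0 : (0 : ℝ) < m := by exact_mod_cast hm
  set z : ℝ := √(m / V) with hz
  have hzp : 0 < (m : ℝ) / V := by positivity
  have hz0 : 0 < z := Real.sqrt_pos.2 hzp
  have hz2 : z ^ 2 = m / V := Real.sq_sqrt hzp.le
  have h1 := moment_le hI hb hz0 (2 * m) hN
  have h2 : Real.exp (z ^ 2 * ∑ Q ∈ I, b Q ^ 2) ≤ 3 ^ m := by
    have h3 : z ^ 2 * ∑ Q ∈ I, b Q ^ 2 ≤ m := by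
      rw [hz2]
      refine (mul_le_mul_of_nonneg_left hV hzp.le).trans (le_of_eq ?_)
      field_simp
    have h4 : Real.exp 1 ≤ 3 := by
      have := Real.exp_one_lt_d9
      linarith
    calc Real.exp (z ^ 2 * ∑ Q ∈ I, b Q ^ 2) ≤ Real.exp m := Real.exp_le_exp.2 h3
      _ = Real.exp 1 ^ m := by rw [← Real.exp_nat_mul, mul_one]
      _ ≤ 3 ^ m := pow_le_pow_left₀ (Real.exp_pos _).le h4 m
  have h5 : z⁻¹ ^ (2 * m) = (V / m) ^ m := by
    rw [pow_mul, inv_pow, hz2, inv_div]
  have h6 : ((2 * m).factorial : ℝ) ≤ (4 * (m : ℝ) ^ 2) ^ m := by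
    have h7 : (2 * m).factorial ≤ (2 * m) ^ (2 * m) := Nat.factorial_le_pow _
    calc ((2 * m).factorial : ℝ) ≤ (((2 * m) ^ (2 * m) : ℕ) : ℝ) := by exact_mod_cast h7
      _ = (4 * (m : ℝ) ^ 2) ^ m := by
        push_cast
        rw [pow_mul]
        congr 1
        ring
  refine (le_abs_self _).trans (h1.trans ?_)
  rw [h5]
  calc ((2 * m).factorial : ℝ) * ((V / m) ^ m * Real.exp (z ^ 2 * ∑ Q ∈ I, b Q ^ 2)) ≤
      (4 * (m : ℝ) ^ 2) ^ m * ((V / m) ^ m * 3 ^ m) := by
        refine mul_le_mul h6 (mul_le_mul_of_nonneg_left h2 (by positivity)) (by positivity) (by positivity)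
    _ = (12 * m * V) ^ m := by
      rw [← mul_pow, ← mul_pow]
      congr 1
      field_simp
      ring

lemma prop_sum {n : ℕ} (hn : n ≠ 0) :
    ∑ e ∈ n.properDivisors, (e : ℝ) * (#(IR k e) : ℝ) ≤ 2 * (Fintype.card k : ℝ) ^ (n / 2) := by
  have hq : (2 : ℝ) ≤ Fintype.card k := by
    have : 1 < Fintype.card k := Fintype.one_lt_card
    exact_mod_cast this
  set q : ℝ := ((Fintype.card k : ℕ) : ℝ) with hqd
  have h5 : ∀ m : ℕ, ∑ d ∈ range (m + 1), q ^ d ≤ 2 * q ^ m := by
    intro m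
    induction m with
    | zero => simp
    | succ m ih =>
      rw [Finset.sum_range_succ, pow_succ]
      have : 0 ≤ q ^ m := by positivity
      nlinarith
  have h4 : n.properDivisors ⊆ range (n / 2 + 1) := by
    intro d hd
    rw [Nat.mem_properDivisors] at hd
    rw [mem_range]
    obtain ⟨c, hc⟩ := hd.1
    have hc2 : 2 ≤ c := by
      by_contra hcon
      push Not at hcon
      have hcc : c = 0 ∨ c = 1 := by omega
      rcases hcc with rfl | rfl
      · simp at hc
        exact hn hc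
      · rw [mul_one] at hc
        omega
    have : 2 * d ≤ n := by
      rw [hc]
      nlinarith
    omega
  refine le_trans (le_trans (Finset.sum_le_sum fun d hd => ?_)
    (Finset.sum_le_sum_of_subset_of_nonneg h4 fun d _ _ => by positivity)) (h5 (n / 2))
  have hd0 : d ≠ 0 := by
    rintro rfl
    rw [Nat.mem_properDivisors] at hd
    exact hn (Nat.eq_zero_of_zero_dvd hd.1)
  unfold IR
  rw [if_neg hd0]
  exact Pool.Agent.N842.SQ.card_Irr_le k d hd0

lemma rk_q_half (n : ℕ) : rk k ^ n * (Fintype.card k : ℝ) ^ (n / 2) ≤ 1 := by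
  obtain ⟨r0, r1⟩ := rk_bounds k
  have h5 : (Fintype.card k : ℝ) ^ (n / 2) = (rk k ^ (2 * (n / 2)))⁻¹ := by
    rw [pow_mul, rk_sq, inv_pow, inv_inv]
  rw [h5]
  have h6 : rk k ^ n = rk k ^ (n - 2 * (n / 2)) * rk k ^ (2 * (n / 2)) := by
    rw [← pow_add]
    congr 1
    omega
  rw [h6, mul_assoc, mul_inv_cancel₀ (by positivity), mul_one]
  exact pow_le_one₀ r0.le (by linarith)

lemma sqrt_rk (n : ℕ) : √(Fintype.card k : ℝ) ^ n = (rk k ^ n)⁻¹ := by
  unfold rk
  rw [inv_pow, inv_inv]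

lemma card_rk (n : ℕ) : (Fintype.card k : ℝ) ^ n = (rk k ^ (2 * n))⁻¹ := by
  rw [pow_mul, rk_sq, inv_pow, inv_inv]

end

lemma summ {a : ℝ} (ha : 0 < a) : Summable (fun r : ℕ => (r : ℝ) ^ (-(a * r))) := by
  have hg : Summable (fun r : ℕ => (1 / 2 : ℝ) ^ r) := summable_geometric_of_lt_one (by norm_num) (by norm_num)
  refine Summable.of_norm_bounded_eventually_nat hg ?_
  filter_upwards [Filter.eventually_ge_atTop (max 1 ⌈(2 : ℝ) ^ (1 / a)⌉₊)] with r hr
  have h1 : (1 : ℝ) ≤ r := by exact_mod_cast (le_max_left _ _).trans hr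
  have h2 : (2 : ℝ) ^ (1 / a) ≤ r := (Nat.le_ceil _).trans (by exact_mod_cast (le_max_right _ _).trans hr)
  have h0 : (0 : ℝ) < r := by linarith
  rw [Real.norm_eq_abs, abs_of_nonneg (by positivity)]
  have h3 : (r : ℝ) ^ (-(a * r)) = ((r : ℝ) ^ (-a)) ^ r := by
    rw [← Real.rpow_natCast, ← Real.rpow_mul h0.le]
    congr 1
    ring
  rw [h3]
  refine pow_le_pow_left₀ (by positivity) ?_ r
  rw [Real.rpow_neg h0.le, one_div]
  apply inv_anti₀ (by norm_num)
  calc (2 : ℝ) = ((2 : ℝ) ^ (1 / a)) ^ a := by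
        rw [← Real.rpow_mul (by norm_num), one_div, inv_mul_cancel₀ ha.ne', Real.rpow_one]
    _ ≤ (r : ℝ) ^ a := Real.rpow_le_rpow (by positivity) h2 ha.le

lemma anti {a x y : ℝ} (ha : 0 < a) (hx : 1 ≤ x) (hxy : x ≤ y) : y ^ (-(a * y)) ≤ x ^ (-(a * x)) := by
  have hy : 1 ≤ y := hx.trans hxy
  calc y ^ (-(a * y)) ≤ y ^ (-(a * x)) := by
        apply Real.rpow_le_rpow_of_exponent_le hy
        nlinarith
    _ ≤ x ^ (-(a * x)) := Real.rpow_le_rpow_of_nonpos (by linarith) hxy (by nlinarith)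

/-- every point of the circle is close to one of `7 N` points -/
lemma near_point {u : ℂ} (hu : ‖u‖ = 1) {N : ℕ} (hN : 1 ≤ N) :
    ∃ j ∈ range (7 * N), ‖u - Complex.exp (2 * Real.pi * Complex.I * (j / (7 * N : ℕ)))‖ ≤ 1 / N := by
  have hJ : (0 : ℝ) < ((7 * N : ℕ) : ℝ) := by
    have : 0 < 7 * N := by omega
    exact_mod_cast this
  have hpi := Real.pi_pos
  -- an argument in [0, 2 π)
  obtain ⟨θ, hθ0, hθ1, hθ⟩ : ∃ θ : ℝ, 0 ≤ θ ∧ θ < 2 * Real.pi ∧ u = Complex.exp (θ * Complex.I) := by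
    have h1 : u = Complex.exp (u.arg * Complex.I) := by
      have := Complex.norm_mul_exp_arg_mul_I u
      rw [hu, Complex.ofReal_one, one_mul] at this
      exact this.symm
    have h2 := Complex.neg_pi_lt_arg u
    have h3 := Complex.arg_le_pi u
    by_cases h : 0 ≤ u.arg
    · exact ⟨u.arg, h, by linarith, h1⟩
    · refine ⟨u.arg + 2 * Real.pi, by linarith, by linarith, ?_⟩
      push_cast
      rw [add_mul, Complex.exp_add, Complex.exp_two_pi_mul_I, mul_one]
      exact h1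
  set y : ℝ := θ * ((7 * N : ℕ) : ℝ) / (2 * Real.pi) with hy
  have hy0 : 0 ≤ y := by positivity
  refine ⟨⌊y⌋₊, ?_, ?_⟩
  · rw [mem_range]
    rw [Nat.floor_lt hy0, hy, div_lt_iff₀ (by positivity), mul_comm]
    exact mul_lt_mul_of_pos_left hθ1 hJ
  · have h1 := Nat.floor_le hy0
    have h2 := Nat.lt_floor_add_one y
    set φ : ℝ := 2 * Real.pi * ((⌊y⌋₊ : ℝ) / ((7 * N : ℕ) : ℝ)) with hφ
    have h3 : Complex.exp (2 * Real.pi * Complex.I * ((⌊y⌋₊ : ℂ) / ((7 * N : ℕ) : ℂ))) =
        Complex.exp (φ * Complex.I) := by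
      congr 1
      rw [hφ]
      push_cast
      ring
    rw [h3, hθ]
    have h4 : Complex.exp (θ * Complex.I) - Complex.exp (φ * Complex.I) =
        Complex.exp (φ * Complex.I) * (Complex.exp (((θ - φ : ℝ) : ℂ) * Complex.I) - 1) := by
      rw [mul_sub, mul_one, ← Complex.exp_add]
      congr 2
      push_cast
      ring
    rw [h4, norm_mul, Complex.norm_exp_ofReal_mul_I, one_mul, mul_comm _ Complex.I]
    refine (Real.norm_exp_I_mul_ofReal_sub_one_le).trans ?_
    have h5 : θ = 2 * Real.pi * (y / ((7 * N : ℕ) : ℝ)) := by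
      rw [hy]
      field_simp
    have h6 : θ - φ = 2 * Real.pi * ((y - ⌊y⌋₊) / ((7 * N : ℕ) : ℝ)) := by
      rw [hφ]
      conv_lhs => rw [h5]
      ring
    rw [Real.norm_eq_abs, h6, abs_of_nonneg (by
      have : 0 ≤ y - ⌊y⌋₊ := by linarith
      positivity)]
    have hN' : (0 : ℝ) < N := by exact_mod_cast hN
    have h7 : (y - ⌊y⌋₊) / ((7 * N : ℕ) : ℝ) ≤ 1 / (7 * N) := by
      push_cast
      exact div_le_div_of_nonneg_right (by linarith) (by positivity)
    calc 2 * Real.pi * ((y - ⌊y⌋₊) / ((7 * N : ℕ) : ℝ)) ≤ 2 * 3.5 * (1 / (7 * N)) := by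
          have h8 := Real.pi_lt_d2
          have h9 : (0 : ℝ) ≤ 1 / (7 * N) := by positivity
          refine mul_le_mul (by linarith) h7 (div_nonneg (by linarith) hJ.le) (by norm_num)
      _ = 1 / N := by
        field_simp
        norm_num



/-- the points -/
noncomputable def pt (N j : ℕ) : ℂ := Complex.exp (2 * Real.pi * Complex.I * (j / (7 * N : ℕ)))

lemma pt_norm (N j : ℕ) : ‖pt N j‖ = 1 := by
  unfold pt
  have : (2 * Real.pi * Complex.I * ((j : ℂ) / ((7 * N : ℕ) : ℂ))) =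
      ((2 * Real.pi * ((j : ℝ) / ((7 * N : ℕ) : ℝ)) : ℝ) : ℂ) * Complex.I := by
    push_cast
    ring
  rw [this, Complex.norm_exp_ofReal_mul_I]

section rank
open Module LinearMap

/-- the multiplicity of an eigenvalue -/
lemma mult_eq {V : Type} [AddCommGroup V] [Module ℂ V] [FiniteDimensional ℂ V] {D : ℕ} {α : Fin D → ℂ}
    (Φ : Module.End ℂ V) (hχ : Φ.charpoly = ∏ i, (X - C (α i))) (μ : ℂ) :
    finrank ℂ (Φ.maxGenEigenspace μ) = #(univ.filter fun j => α j = μ) := by
  classical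
  rw [LinearMap.finrank_maxGenEigenspace_eq, hχ, ← Polynomial.count_roots]
  have h1 : (∏ i, (X - C (α i))).roots = Multiset.map α (univ : Finset (Fin D)).val := by
    have : (∏ i, (X - C (α i))) = (Multiset.map (fun a => X - C a)
        (Multiset.map α (univ : Finset (Fin D)).val)).prod := by
      rw [Multiset.map_map]
      rfl
    rw [this, roots_multiset_prod_X_sub_C]
  rw [h1, Multiset.count_map]
  rw [Finset.card_def, Finset.filter_val]
  congr 2
  ext i
  exact eq_comm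

lemma rank_pow_le {V : Type} [AddCommGroup V] [Module ℂ V] [FiniteDimensional ℂ V] {D : ℕ}
    {α : Fin D → ℂ} (Φ n : Module.End ℂ V) (hχ : Φ.charpoly = ∏ i, (X - C (α i)))
    (hc : Commute Φ n) (hn : IsNilpotent n) (R : ℕ) :
    finrank ℂ (LinearMap.range (n ^ R)) ≤
      #(open Classical in univ.filter fun i => R + 1 ≤ #(univ.filter fun j => α j = α i)) := by
  classical
  set s : Finset (Fin D) := univ.filter fun i => R + 1 ≤ #(univ.filter fun j => α j = α i) with hs
  have h1 : LinearMap.range (n ^ R) ≤ (s.image α).sup fun μ => Φ.maxGenEigenspace μ := by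
    rw [LinearMap.range_eq_map, ← Module.End.iSup_maxGenEigenspace_eq_top Φ, Submodule.map_iSup]
    refine iSup_le fun μ => ?_
    by_cases h : R + 1 ≤ finrank ℂ (Φ.maxGenEigenspace μ)
    · have h2 : μ ∈ s.image α := by
        rw [mult_eq Φ hχ μ] at h
        have h3 : (univ.filter fun j => α j = μ).Nonempty := by
          rw [← Finset.card_pos]
          omega
        obtain ⟨i, hi⟩ := h3
        have hi' := (mem_filter.1 hi).2
        rw [mem_image]
        refine ⟨i, ?_, hi'⟩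
        rw [hs, mem_filter, hi']
        exact ⟨mem_univ _, h⟩
      have h4 : Submodule.map (n ^ R) (Φ.maxGenEigenspace μ) ≤ Φ.maxGenEigenspace μ := by
        rw [Submodule.map_le_iff_le_comap]
        exact Module.End.mapsTo_maxGenEigenspace_of_comm (hc.pow_right R) μ
      exact h4.trans (Finset.le_sup (f := fun μ => Φ.maxGenEigenspace μ) h2)
    · have hmap := Module.End.mapsTo_maxGenEigenspace_of_comm hc μ
      set n' : Module.End ℂ (Φ.maxGenEigenspace μ) := n.restrict hmap with hn'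
      have h5 : IsNilpotent n' := Module.End.isNilpotent.restrict hmap hn
      have h6 : n' ^ R = 0 := by
        obtain ⟨m, hm⟩ := h5
        have h7 := Module.End.ker_pow_le_ker_pow_finrank n' m
        rw [hm, LinearMap.ker_zero, top_le_iff, LinearMap.ker_eq_top] at h7
        exact pow_eq_zero_of_le (by omega) h7
      have h8 : Submodule.map (n ^ R) (Φ.maxGenEigenspace μ) = ⊥ := by
        rw [eq_bot_iff, Submodule.map_le_iff_le_comap]
        intro x hx
        rw [Submodule.mem_comap, Submodule.mem_bot]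
        have h9 : ((n' ^ R) ⟨x, hx⟩ : V) = (n ^ R) x := by
          rw [hn', Module.End.pow_restrict R hmap]
          rfl
        rw [← h9, h6]
        rfl
      rw [h8]
      exact bot_le
  have h2 : ∀ t : Finset ℂ, finrank ℂ (t.sup fun μ => Φ.maxGenEigenspace μ : Submodule ℂ V) ≤
      ∑ μ ∈ t, finrank ℂ (Φ.maxGenEigenspace μ) := by
    intro t
    induction t using Finset.induction_on with
    | empty => simp
    | insert a t ha ih =>
      rw [Finset.sup_insert, sum_insert ha]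
      exact (Submodule.finrank_add_le_finrank_add_finrank _ _).trans (by omega)
  refine (Submodule.finrank_mono h1).trans ((h2 _).trans (le_of_eq ?_))
  simp_rw [mult_eq Φ hχ]
  rw [Finset.card_eq_sum_card_image α s]
  refine sum_congr rfl fun μ hμ => ?_
  obtain ⟨i, hi, rfl⟩ := mem_image.1 hμ
  congr 1
  ext j
  rw [mem_filter, mem_filter]
  constructor
  · rintro ⟨_, h⟩
    refine ⟨?_, h⟩
    rw [hs, mem_filter] at hi ⊢
    rw [h]
    exact ⟨mem_univ _, hi.2⟩
  · rintro ⟨_, h⟩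
    exact ⟨mem_univ _, h⟩

end rank

end Pool.Agent.J6H2.NP
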