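import Pool.Agent.J6H2.NP.Base

set_option autoImplicit false
set_option linter.all false

/-! The number of eigenvalues near a point, and the moments of the random sum over the primes. -/

namespace Pool.Agent.J6H2.NP

open Finset Polynomial Pool.Agent.N430.BP.FF

section
variable {k : Type} [Field k] [Fintype k]

/-- The data of one member of the family: normalised eigenvalues `u i` on the unit circle and the
explicit formula, `t P` being the normalised trace of Frobenius at the prime `P`. -/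
structure ED (t : k[X] → ℂ) (G K : ℝ) where
  D : ℕ
  u : Fin D → ℂ
  hD : (D : ℝ) ≤ K
  hu : ∀ i, ‖u i‖ = 1
  hform : ∀ n : ℕ, 1 ≤ n → ‖∑ i, u i ^ n + ((n * rk k ^ n : ℝ) : ℂ) * ∑ P ∈ IR k n, t P‖ ≤
    K * rk k ^ n + G

/-- the random sum -/
noncomputable def TT (t : k[X] → ℂ) (M : ℕ) (z : ℂ) : ℝ :=
  ∑ n ∈ range M, ∑ P ∈ IR k (n + 1), 8 / ((M : ℝ) + 1) ^ 2 * ((M : ℝ) - n) *
    (((n + 1 : ℕ) : ℝ) * rk k ^ (n + 1)) * (-(z⁻¹ ^ (n + 1)) * t P).re

/-- **The number of eigenvalues near a point.** -/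
theorem count_main {t : k[X] → ℂ} {G K : ℝ} (E : ED t G K) (hK : 0 ≤ K) (hG : 0 ≤ G) {z : ℂ}
    (hz : ‖z‖ = 1) {M : ℕ} {δ : ℝ} (hM : M * δ ≤ 1) (S : Finset (Fin E.D))
    (hS : ∀ i ∈ S, ‖E.u i - z‖ ≤ δ) :
    (#S : ℝ) ≤ 36 * (K / (M + 1)) + 8 * G + TT t M z := by
  obtain ⟨r0, r1⟩ := rk_bounds k
  have hz0 : z ≠ 0 := by
    rintro rfl
    simp at hz
  have hu : ∀ i, ‖E.u i / z‖ = 1 := by
    intro i
    rw [norm_div, hz, div_one, E.hu i]
  have hu1 : ∀ i ∈ S, ‖E.u i / z - 1‖ ≤ δ := by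
    intro i hi
    have e : E.u i / z - 1 = (E.u i - z) / z := by
      field_simp
    rw [e, norm_div, hz, div_one]
    exact hS i hi
  have h1 := Pool.Agent.N430.RT.count_le (fun i => E.u i / z) hu hM S hu1
  have hMp : (0 : ℝ) < (M : ℝ) + 1 := by positivity
  have h2 : ∀ n ∈ range M, ((M : ℝ) - n) * (∑ i, (E.u i / z) ^ (n + 1)).re ≤
      ((M : ℝ) + 1) ^ 2 / 8 * (∑ P ∈ IR k (n + 1), 8 / ((M : ℝ) + 1) ^ 2 * ((M : ℝ) - n) *
        (((n + 1 : ℕ) : ℝ) * rk k ^ (n + 1)) * (-(z⁻¹ ^ (n + 1)) * t P).re) +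
        ((M + 1) * K) * rk k ^ n + (M + 1) * G := by
    intro n hn
    rw [mem_range] at hn
    have hnM : (n : ℝ) + 1 ≤ M := by exact_mod_cast hn
    have hn0 : (0 : ℝ) ≤ n := Nat.cast_nonneg _
    have hzn : ‖z⁻¹ ^ (n + 1)‖ = 1 := by rw [norm_pow, norm_inv, hz]; simp
    have h3 := E.hform (n + 1) (by omega)
    set su : ℂ := ∑ i, E.u i ^ (n + 1) with hsu
    set T : ℂ := ∑ P ∈ IR k (n + 1), t P with hT
    set c : ℝ := ((n + 1 : ℕ) : ℝ) * rk k ^ (n + 1) with hc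
    have e1 : ∑ i, (E.u i / z) ^ (n + 1) = z⁻¹ ^ (n + 1) * su := by
      rw [hsu, Finset.mul_sum]
      refine Finset.sum_congr rfl fun i _ => ?_
      rw [div_eq_mul_inv, mul_pow, mul_comm]
    have e2 : (z⁻¹ ^ (n + 1) * su).re ≤ c * (-(z⁻¹ ^ (n + 1)) * T).re + (K * rk k ^ (n + 1) + G) := by
      have h4 : z⁻¹ ^ (n + 1) * su = (c : ℂ) * (-(z⁻¹ ^ (n + 1)) * T) +
          z⁻¹ ^ (n + 1) * (su + (c : ℂ) * T) := by ring
      rw [h4, Complex.add_re, Complex.re_ofReal_mul]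
      have h5 : (z⁻¹ ^ (n + 1) * (su + (c : ℂ) * T)).re ≤ K * rk k ^ (n + 1) + G := by
        refine (Complex.re_le_norm _).trans ?_
        rw [norm_mul, hzn, one_mul]
        exact h3
      linarith
    have e3 : ∑ P ∈ IR k (n + 1), 8 / ((M : ℝ) + 1) ^ 2 * ((M : ℝ) - n) * c *
        (-(z⁻¹ ^ (n + 1)) * t P).re = 8 / ((M : ℝ) + 1) ^ 2 * ((M : ℝ) - n) * c *
          (-(z⁻¹ ^ (n + 1)) * T).re := by
      rw [hT, ← Finset.mul_sum, Finset.mul_sum (IR k (n + 1)) t, Complex.re_sum]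
    rw [e1, e3]
    have h4 := mul_le_mul_of_nonneg_left e2 (by linarith : 0 ≤ (M : ℝ) - n)
    refine h4.trans ?_
    have h5 : ((M : ℝ) + 1) ^ 2 / 8 * (8 / ((M : ℝ) + 1) ^ 2 * ((M : ℝ) - n) * c *
          (-(z⁻¹ ^ (n + 1)) * T).re) = ((M : ℝ) - n) * (c * (-(z⁻¹ ^ (n + 1)) * T).re) := by
      field_simp
    rw [h5]
    have h6 : rk k ^ (n + 1) ≤ rk k ^ n := pow_le_pow_of_le_one r0.le (by linarith) (by omega)
    have h7 : 0 ≤ rk k ^ n := by positivity
    have h7' : 0 ≤ rk k ^ (n + 1) := by positivity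
    have h9 : ((M : ℝ) - n) * (K * rk k ^ (n + 1)) ≤ ((M + 1) * K) * rk k ^ n := by
      calc ((M : ℝ) - n) * (K * rk k ^ (n + 1)) ≤ (M + 1) * (K * rk k ^ n) :=
            mul_le_mul (by linarith) (mul_le_mul_of_nonneg_left h6 hK) (by positivity) (by positivity)
        _ = _ := by ring
    have h10 : ((M : ℝ) - n) * G ≤ (M + 1) * G :=
      mul_le_mul_of_nonneg_right (by linarith) hG
    linarith
  have h4 := Finset.sum_le_sum h2
  rw [Finset.sum_add_distrib, Finset.sum_add_distrib, ← Finset.mul_sum, ← Finset.mul_sum,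
    Finset.sum_const, card_range, nsmul_eq_mul] at h4
  have h5 : ∑ n ∈ range M, ∑ P ∈ IR k (n + 1), 8 / ((M : ℝ) + 1) ^ 2 * ((M : ℝ) - n) *
    (((n + 1 : ℕ) : ℝ) * rk k ^ (n + 1)) * (-(z⁻¹ ^ (n + 1)) * t P).re = TT t M z := rfl
  rw [h5] at h4
  have h6 := geom_le k M
  have h7 : ((M + 1) * K) * ∑ n ∈ range M, rk k ^ n ≤ ((M + 1) * K) * 4 :=
    mul_le_mul_of_nonneg_left h6 (by positivity)
  have h8 : (M : ℝ) * ((M + 1) * G) ≤ (M + 1) * ((M + 1) * G) :=
    mul_le_mul_of_nonneg_right (by linarith) (by positivity)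
  have h9 : (E.D : ℝ) * (M + 1) ≤ K * (M + 1) := mul_le_mul_of_nonneg_right E.hD hMp.le
  have h10 : (#S : ℝ) * (((M : ℝ) + 1) ^ 2 / 4) ≤
      (36 * (K / (M + 1)) + 8 * G + TT t M z) * (((M : ℝ) + 1) ^ 2 / 4) := by
    have e : (36 * (K / (M + 1)) + 8 * G + TT t M z) * (((M : ℝ) + 1) ^ 2 / 4) =
        9 * K * (M + 1) + 2 * G * (M + 1) ^ 2 +
          2 * (((M : ℝ) + 1) ^ 2 / 8 * TT t M z) := by
      field_simp
      ring
    rw [e]
    refine h1.trans ?_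
    nlinarith
  exact le_of_mul_le_mul_right h10 (by positivity)

/-- A system of local traces depending on two polynomials. -/
structure Sys (t : k[X] → k[X] × k[X] → ℂ) (n₀ : ℝ) : Prop where
  per : ∀ P : k[X], ∀ v v' : k[X] × k[X], P ∣ v.1 - v'.1 → P ∣ v.2 - v'.2 → t P v = t P v'
  bound : ∀ P : k[X], P.Monic → Irreducible P → ∀ v, ‖t P v‖ ≤ n₀
  mean : ∀ P : k[X], P.Monic → Irreducible P → ∀ N : ℕ, P.natDegree ≤ N → ∀ ω : ℂ,
    mV N (fun v => (ω * t P v).re) = 0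

/-- **The moments of the random sum.** -/
theorem TT_moment {t : k[X] → k[X] × k[X] → ℂ} {n₀ : ℝ} (ht : Sys t n₀) (hn₀ : 0 < n₀) {z : ℂ}
    (hz : ‖z‖ = 1) {M N m : ℕ} (hm : 1 ≤ m) (hN : (2 * m + 1) * M ≤ N) :
    ∑ v : VV k N, TT (fun P => t P ((v.1 : k[X]), (v.2 : k[X]))) M z ^ (2 * m) ≤
      (768 * n₀ ^ 2 * m) ^ m * (Fintype.card k : ℝ) ^ (2 * N) := by
  classical
  obtain ⟨r0, r1⟩ := rk_bounds k
  have hMp : (0 : ℝ) < (M : ℝ) + 1 := by positivity
  set I : Finset k[X] := (range M).biUnion fun n => IR k (n + 1) with hI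
  have hmem : ∀ P ∈ I, P.Monic ∧ Irreducible P ∧ P.natDegree ≤ M ∧ 1 ≤ P.natDegree := by
    intro P hP
    rw [hI, Finset.mem_biUnion] at hP
    obtain ⟨n, hn, hP⟩ := hP
    obtain ⟨g1, g2, g3⟩ := mem_IR.1 hP
    rw [mem_range] at hn
    exact ⟨g1, g2, by omega, by omega⟩
  have hdis : ((range M : Finset ℕ) : Set ℕ).PairwiseDisjoint (fun n => IR k (n + 1)) := by
    intro n _ m _ hnm
    rw [Function.onFun, Finset.disjoint_left]
    intro P h1 h2
    have := (mem_IR.1 h1).2.2.symm.trans (mem_IR.1 h2).2.2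
    exact hnm (by omega)
  set X : k[X] → k[X] × k[X] → ℝ := fun P v =>
    8 / ((M : ℝ) + 1) ^ 2 * ((M : ℝ) + 1 - P.natDegree) * ((P.natDegree : ℝ) * rk k ^ P.natDegree) *
      (-(z⁻¹ ^ P.natDegree) * t P v).re with hX
  set b : k[X] → ℝ := fun P => 8 / ((M : ℝ) + 1) * n₀ * (P.natDegree * rk k ^ P.natDegree) with hb
  have hsum : ∀ v, ∑ P ∈ I, X P v = TT (fun P => t P v) M z := by
    intro v
    rw [hI, Finset.sum_biUnion hdis]
    unfold TT
    refine Finset.sum_congr rfl fun n _ => ?_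
    refine Finset.sum_congr rfl fun P hP => ?_
    rw [hX]
    simp only
    rw [(mem_IR.1 hP).2.2]
    push_cast
    ring
  have hV : ∑ Q ∈ I, b Q ^ 2 ≤ 64 * n₀ ^ 2 := by
    rw [hI, Finset.sum_biUnion hdis]
    have h5 : ∀ n ∈ range M, ∑ P ∈ IR k (n + 1), b P ^ 2 ≤ 64 * n₀ ^ 2 / ((M : ℝ) + 1) := by
      intro n hn
      rw [mem_range] at hn
      have hnM : ((n + 1 : ℕ) : ℝ) ≤ M + 1 := by
        have : ((n + 1 : ℕ) : ℝ) ≤ M := by exact_mod_cast hn
        linarith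
      have h6 : ∑ P ∈ IR k (n + 1), b P ^ 2 = (8 / ((M : ℝ) + 1) * n₀) ^ 2 * ((n + 1 : ℕ) : ℝ) ^ 2 *
          ((#(IR k (n + 1)) : ℝ) * rk k ^ (2 * (n + 1))) := by
        rw [Finset.sum_congr rfl (g := fun _ => (8 / ((M : ℝ) + 1) * n₀ *
          (((n + 1 : ℕ) : ℝ) * rk k ^ (n + 1))) ^ 2) fun P hP => by
            rw [hb]
            simp only
            rw [(mem_IR.1 hP).2.2], Finset.sum_const, nsmul_eq_mul]
        ring
      rw [h6]
      have h7 := dens_le k (n := n + 1) (by omega)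
      have h8 : (0 : ℝ) < ((n + 1 : ℕ) : ℝ) := by positivity
      calc (8 / ((M : ℝ) + 1) * n₀) ^ 2 * ((n + 1 : ℕ) : ℝ) ^ 2 *
          ((#(IR k (n + 1)) : ℝ) * rk k ^ (2 * (n + 1))) ≤
          (8 / ((M : ℝ) + 1) * n₀) ^ 2 * ((n + 1 : ℕ) : ℝ) ^ 2 * (1 / ((n + 1 : ℕ) : ℝ)) :=
            mul_le_mul_of_nonneg_left h7 (by positivity)
        _ = 64 * n₀ ^ 2 / ((M : ℝ) + 1) ^ 2 * ((n + 1 : ℕ) : ℝ) := by
            field_simp
            ring
        _ ≤ 64 * n₀ ^ 2 / ((M : ℝ) + 1) ^ 2 * (M + 1) :=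
            mul_le_mul_of_nonneg_left hnM (by positivity)
        _ = _ := by
            field_simp
    refine (Finset.sum_le_sum h5).trans ?_
    rw [Finset.sum_const, card_range, nsmul_eq_mul]
    calc (M : ℝ) * (64 * n₀ ^ 2 / ((M : ℝ) + 1)) ≤ (M + 1) * (64 * n₀ ^ 2 / ((M : ℝ) + 1)) :=
          mul_le_mul_of_nonneg_right (by linarith) (by positivity)
      _ = _ := by field_simp
  have key := moment_sub (k := k) (X := X) (b := b) (x := M) (N := N) (I := I) (by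
      intro P hP
      obtain ⟨g1, g2, g3, _⟩ := hmem P hP
      refine ⟨g1, g2, g3, ?_⟩
      intro v v' h4 h5
      rw [hX]
      simp only
      rw [ht.per P v v' h4 h5]) (by
      intro P hP
      obtain ⟨g1, g2, g3, g4⟩ := hmem P hP
      have g3' : (P.natDegree : ℝ) ≤ M := by exact_mod_cast g3
      have g4' : (1 : ℝ) ≤ P.natDegree := by exact_mod_cast g4
      refine ⟨by positivity, fun v => ?_, ?_⟩
      · have h4 := ht.bound P g1 g2 v
        have h5 : |(-(z⁻¹ ^ P.natDegree) * t P v).re| ≤ n₀ := by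
          refine (Complex.abs_re_le_norm _).trans ?_
          rw [norm_mul, norm_neg, norm_pow, norm_inv, hz, inv_one, one_pow, one_mul]
          exact h4
        rw [hX]
        simp only
        have h6 : 0 ≤ 8 / ((M : ℝ) + 1) ^ 2 * ((M : ℝ) + 1 - P.natDegree) := by
          have : 0 ≤ (M : ℝ) + 1 - P.natDegree := by linarith
          positivity
        have h7 : 0 ≤ (P.natDegree : ℝ) * rk k ^ P.natDegree := by positivity
        rw [abs_mul, abs_of_nonneg (mul_nonneg h6 h7)]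
        have h8 : 8 / ((M : ℝ) + 1) ^ 2 * ((M : ℝ) + 1 - P.natDegree) ≤ 8 / ((M : ℝ) + 1) := by
          calc 8 / ((M : ℝ) + 1) ^ 2 * ((M : ℝ) + 1 - P.natDegree) ≤
              8 / ((M : ℝ) + 1) ^ 2 * ((M : ℝ) + 1) :=
                mul_le_mul_of_nonneg_left (by linarith) (by positivity)
            _ = _ := by field_simp
        calc 8 / ((M : ℝ) + 1) ^ 2 * ((M : ℝ) + 1 - P.natDegree) * ((P.natDegree : ℝ) *
              rk k ^ P.natDegree) * |(-(z⁻¹ ^ P.natDegree) * t P v).re| ≤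
            8 / ((M : ℝ) + 1) * ((P.natDegree : ℝ) * rk k ^ P.natDegree) * n₀ := by
              refine mul_le_mul (mul_le_mul_of_nonneg_right h8 h7) h5 (abs_nonneg _) (by positivity)
          _ = b P := by
            rw [hb]
            ring
      · have h4 := ht.mean P g1 g2 N (by nlinarith) (-(z⁻¹ ^ P.natDegree))
        unfold mV at h4 ⊢
        rw [hX]
        simp only
        rw [mn_mul_left, h4, mul_zero]) hm hN (V := 64 * n₀ ^ 2) (by positivity) hV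
  simp only [hsum] at key
  have hc : (0 : ℝ) < Fintype.card (VV k N) := by exact_mod_cast Fintype.card_pos
  unfold mV mn at key
  rw [div_le_iff₀ hc, card_VV] at key
  refine key.trans (le_of_eq ?_)
  push_cast
  congr 1
  congr 1
  ring

end

end Pool.Agent.J6H2.NP
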