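import Pool.Agent.J6H2.NP.Cnt

set_option autoImplicit false
set_option linter.all false

/-! Local traces which depend on the residue of one polynomial and have mean value zero; the tame and the
wild characters. -/

namespace Pool.Agent.J6H2.NP

open Finset Polynomial Pool.Agent.N430.BP.FF

section
variable {k : Type} [Field k] [Fintype k]

/-- a function of the residue of the first polynomial with sum zero -/
lemma mean_res {P : k[X]} (hP : P.Monic) (hi : Irreducible P) {N : ℕ} (hN : P.natDegree ≤ N)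
    [Fintype (k[X] ⧸ Ideal.span {P})] (f : (k[X] ⧸ Ideal.span {P}) → ℂ) (hf : ∑ a, f a = 0) (ω : ℂ) :
    mV N (fun v => (ω * f (Ideal.Quotient.mk _ v.1)).re) = 0 := by
  have h1 := mV_res hP hN (fun a _ => (ω * f a).re) 0 0
  simp only [zero_add] at h1
  rw [h1]
  have h2 : ∑ a : k[X] ⧸ Ideal.span {P}, ∑ _b : k[X] ⧸ Ideal.span {P}, (ω * f a).re = 0 := by
    rw [Finset.sum_comm]
    refine Finset.sum_eq_zero fun b _ => ?_
    rw [← Complex.re_sum, ← Finset.mul_sum, hf, mul_zero, Complex.zero_re]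
  rw [h2, zero_div]

/-- the residue field of a monic irreducible polynomial -/
lemma finite_res {P : k[X]} (hP : P.Monic) : Finite (k[X] ⧸ Ideal.span {P}) := fin_quot hP

lemma max_of_irr {P : k[X]} (hi : Irreducible P) : (Ideal.span {P}).IsMaximal :=
  PrincipalIdealRing.isMaximal_of_irreducible hi

/-- **Tame characters.** -/
lemma tame_sum {P : k[X]} (hP : P.Monic) (hi : Irreducible P) [Fintype (k[X] ⧸ Ideal.span {P})]
    (χ : MulChar k ℂ) (hχ : χ ≠ 1) :
    ∑ a : k[X] ⧸ Ideal.span {P}, χ (Algebra.norm k a) = 0 := by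
  have hm := max_of_irr hi
  letI : Field (k[X] ⧸ Ideal.span {P}) := Ideal.Quotient.field _
  have hs := FiniteField.norm_surjective k (k[X] ⧸ Ideal.span {P})
  obtain ⟨u, hu⟩ : ∃ u : kˣ, χ u ≠ 1 := by
    by_contra hcon
    push Not at hcon
    apply hχ
    ext u
    rw [hcon u, MulChar.one_apply_coe]
  obtain ⟨b, hb⟩ := hs (u : k)
  have hb0 : b ≠ 0 := by
    rintro rfl
    have h0 : Algebra.norm k (0 : k[X] ⧸ Ideal.span {P}) = 0 := by
      rw [Algebra.norm_eq_zero_iff]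
    rw [h0] at hb
    exact u.ne_zero hb.symm
  have h1 : ∑ a : k[X] ⧸ Ideal.span {P}, χ (Algebra.norm k (b * a)) =
      ∑ a : k[X] ⧸ Ideal.span {P}, χ (Algebra.norm k a) :=
    Fintype.sum_equiv (Equiv.mulLeft₀ b hb0) _ _ fun a => rfl
  have h2 : ∑ a : k[X] ⧸ Ideal.span {P}, χ (Algebra.norm k (b * a)) =
      χ u * ∑ a : k[X] ⧸ Ideal.span {P}, χ (Algebra.norm k a) := by
    rw [Finset.mul_sum]
    refine Finset.sum_congr rfl fun a _ => ?_
    rw [map_mul, hb, map_mul]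
  rw [h2] at h1
  have h3 : (χ u - 1) * ∑ a : k[X] ⧸ Ideal.span {P}, χ (Algebra.norm k a) = 0 := by
    rw [sub_mul, one_mul, h1, sub_self]
  rcases mul_eq_zero.1 h3 with h | h
  · exact absurd (sub_eq_zero.1 h) hu
  · exact h

/-- **Wild characters.** -/
lemma wild_sum {P : k[X]} (hP : P.Monic) (hi : Irreducible P) [Fintype (k[X] ⧸ Ideal.span {P})]
    (ψ : AddChar k ℂ) (hψ : ψ ≠ 1) :
    ∑ a : k[X] ⧸ Ideal.span {P}, ψ (Algebra.trace k _ a) = 0 := by
  have hm := max_of_irr hi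
  letI : Field (k[X] ⧸ Ideal.span {P}) := Ideal.Quotient.field _
  have hs := Algebra.trace_surjective k (k[X] ⧸ Ideal.span {P})
  obtain ⟨u, hu⟩ : ∃ u : k, ψ u ≠ 1 := by
    by_contra hcon
    push Not at hcon
    apply hψ
    ext u
    rw [hcon u, AddChar.one_apply]
  obtain ⟨b, hb⟩ := hs u
  have h1 : ∑ a : k[X] ⧸ Ideal.span {P}, ψ (Algebra.trace k _ (b + a)) =
      ∑ a : k[X] ⧸ Ideal.span {P}, ψ (Algebra.trace k _ a) :=
    Fintype.sum_equiv (Equiv.addLeft b) _ _ fun a => rfl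
  have h2 : ∑ a : k[X] ⧸ Ideal.span {P}, ψ (Algebra.trace k _ (b + a)) =
      ψ u * ∑ a : k[X] ⧸ Ideal.span {P}, ψ (Algebra.trace k _ a) := by
    rw [Finset.mul_sum]
    refine Finset.sum_congr rfl fun a _ => ?_
    rw [map_add, hb, AddChar.map_add_eq_mul]
  rw [h2] at h1
  have h3 : (ψ u - 1) * ∑ a : k[X] ⧸ Ideal.span {P}, ψ (Algebra.trace k _ a) = 0 := by
    rw [sub_mul, one_mul, h1, sub_self]
  rcases mul_eq_zero.1 h3 with h | h
  · exact absurd (sub_eq_zero.1 h) hu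
  · exact h

lemma norm_mulChar_le (χ : MulChar k ℂ) (a : k) : ‖χ a‖ ≤ 1 := by
  by_cases ha : IsUnit a
  · obtain ⟨u, rfl⟩ := ha
    have h1 : (χ (u : k)) ^ Nat.card kˣ = 1 := by
      rw [← map_pow, ← Units.val_pow_eq_pow_val, pow_card_eq_one', Units.val_one, map_one]
    have h2 : ‖χ (u : k)‖ ^ Nat.card kˣ = 1 := by rw [← norm_pow, h1, norm_one]
    exact ((pow_eq_one_iff_of_nonneg (norm_nonneg _) Nat.card_pos.ne').1 h2).le
  · rw [MulChar.map_nonunit χ ha, norm_zero]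
    exact zero_le_one

lemma norm_addChar_le (ψ : AddChar k ℂ) (a : k) : ‖ψ a‖ ≤ 1 := by
  have h1 : (ψ a) ^ Fintype.card k = 1 := by
    rw [← AddChar.map_nsmul_eq_pow, card_nsmul_eq_zero, AddChar.map_zero_eq_one]
  have h2 : ‖ψ a‖ ^ Fintype.card k = 1 := by rw [← norm_pow, h1, norm_one]
  exact ((pow_eq_one_iff_of_nonneg (norm_nonneg _) Fintype.card_ne_zero).1 h2).le

end

end Pool.Agent.J6H2.NP
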