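import Pool.Agent.J6H2.NP.Avg
import Pool.Agent.J6H2.NP.Mean

set_option autoImplicit false
set_option linter.all false

/-! From the trace formula to the engine; families with one random polynomial. -/

namespace Pool.Agent.J6H2.NP

open Finset Polynomial Pool.Agent.N430.BP.FF

section
variable {k : Type} [Field k] [Fintype k]

open Classical in
/-- the normalised local trace -/
noncomputable def tn (w : ℕ) {r : ℕ} (bad : Finset k[X]) (loc : k[X] → Fin r → ℂ) (χ : k[X] → ℂ)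
    (P : k[X]) : ℂ :=
  if P ∈ bad then 0 else ((rk k ^ (w * P.natDegree) : ℝ) : ℂ) * (χ P * ∑ i, loc P i)

/-- **The explicit formula.** -/
noncomputable def edOf {w r : ℕ} {bad : Finset k[X]} {loc : k[X] → Fin r → ℂ}
    (hloc : ∀ P, P.Monic → Irreducible P → P ∉ bad → ∀ i, ‖loc P i‖ ≤ √(Fintype.card k) ^ (w * P.natDegree))
    {χ : k[X] → ℂ} (hχ : ∀ P, ‖χ P‖ ≤ 1) {K : ℝ} {D D' : ℕ} (α : Fin D → ℂ) (β : Fin D' → ℂ)
    (hD : (D : ℝ) ≤ K) (hD' : (D' : ℝ) ≤ K) (hα : ∀ i, ‖α i‖ = √(Fintype.card k) ^ (w + 1))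
    (hβ : ∀ j, ‖β j‖ ≤ √(Fintype.card k) ^ w)
    (hform : ∀ n : ℕ, 1 ≤ n → ∑ i, α i ^ n + ∑ j, β j ^ n =
      -∑ e ∈ n.divisors, ∑ P ∈ (open Classical in (IR k e).filter (· ∉ bad)),
        (e : ℂ) * (χ P ^ (n / e) * ∑ i, loc P i ^ (n / e))) :
    ED (tn w bad loc χ) (2 * r) K where
  D := D
  u := fun i => α i * ((rk k ^ (w + 1) : ℝ) : ℂ)
  hD := hD
  hu := fun i => by
    obtain ⟨r0, r1⟩ := rk_bounds k
    rw [norm_mul, hα i, sqrt_rk, Complex.norm_real, Real.norm_eq_abs, abs_of_nonneg (by positivity),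
      inv_mul_cancel₀ (by positivity)]
  hform := by
    classical
    intro n hn
    obtain ⟨r0, r1⟩ := rk_bounds k
    set q : ℝ := ((Fintype.card k : ℕ) : ℝ) with hqd
    set s : ℝ := rk k ^ n with hs
    have hs0 : 0 < s := by rw [hs]; positivity
    set W : ℝ := rk k ^ (w * n) with hW
    have hW0 : 0 < W := by rw [hW]; positivity
    have hWs : rk k ^ ((w + 1) * n) = W * s := by
      rw [hW, hs, ← pow_add]
      congr 1
      ring
    set G : ℕ → Finset k[X] := fun e => (IR k e).filter (· ∉ bad) with hG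
    set g : ℕ → ℂ := fun e => ∑ P ∈ G e, (e : ℂ) * (χ P ^ (n / e) * ∑ i, loc P i ^ (n / e)) with hg
    have e1 : ∑ i, (α i * ((rk k ^ (w + 1) : ℝ) : ℂ)) ^ n = ((W * s : ℝ) : ℂ) * ∑ i, α i ^ n := by
      rw [Finset.mul_sum]
      refine Finset.sum_congr rfl fun i _ => ?_
      rw [mul_pow, ← Complex.ofReal_pow, ← pow_mul, hWs, mul_comm]
    have e2 : ∑ i, α i ^ n = -g n - ∑ e ∈ n.properDivisors, g e - ∑ j, β j ^ n := by
      have h1 := hform n hn
      rw [← Nat.cons_self_properDivisors (by omega : n ≠ 0), Finset.sum_cons] at h1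
      have h2 : ∑ i, α i ^ n + ∑ j, β j ^ n = -(g n + ∑ e ∈ n.properDivisors, g e) := h1
      linear_combination h2
    have e3 : ((W * s : ℝ) : ℂ) * g n = ((n * s : ℝ) : ℂ) * ∑ P ∈ IR k n, tn w bad loc χ P := by
      have h3 : ∑ P ∈ IR k n, tn w bad loc χ P = ∑ P ∈ G n, (W : ℂ) * (χ P * ∑ i, loc P i) := by
        rw [hG]
        simp only
        rw [Finset.sum_filter]
        refine Finset.sum_congr rfl fun P hP => ?_
        unfold tn
        rw [(mem_IR.1 hP).2.2, hW]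
        by_cases hb : P ∈ bad
        · rw [if_pos hb, if_neg (by simpa using hb)]
        · rw [if_neg hb, if_pos (by simpa using hb)]
      rw [h3, hg]
      simp only
      rw [Finset.mul_sum, Finset.mul_sum]
      refine Finset.sum_congr rfl fun P _ => ?_
      rw [Nat.div_self (by omega)]
      simp only [pow_one]
      push_cast
      ring
    have b1 : ‖∑ j, β j ^ n‖ ≤ K * W⁻¹ := by
      refine (norm_sum_le _ _).trans ((Finset.sum_le_sum (g := fun _ => W⁻¹) fun j _ => ?_).trans ?_)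
      · rw [norm_pow]
        refine (pow_le_pow_left₀ (norm_nonneg _) (hβ j) n).trans (le_of_eq ?_)
        rw [← pow_mul]
        exact sqrt_rk _
      · rw [Finset.sum_const, card_univ, Fintype.card_fin, nsmul_eq_mul]
        exact mul_le_mul_of_nonneg_right hD' (by positivity)
    have b3 : ‖∑ e ∈ n.properDivisors, g e‖ ≤ 2 * q ^ (n / 2) * (r * W⁻¹) := by
      refine (norm_sum_le _ _).trans ?_
      have h1 : ∀ e ∈ n.properDivisors, ‖g e‖ ≤ ((e : ℝ) * (#(IR k e) : ℝ)) * (r * W⁻¹) := by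
        intro e he
        rw [Nat.mem_properDivisors] at he
        refine (norm_sum_le _ _).trans ?_
        have h2 : ∀ P ∈ G e, ‖(e : ℂ) * (χ P ^ (n / e) * ∑ i, loc P i ^ (n / e))‖ ≤ e * (r * W⁻¹) := by
          intro P hP
          rw [hG] at hP
          simp only [mem_filter] at hP
          obtain ⟨g1, g2, g3⟩ := mem_IR.1 hP.1
          rw [norm_mul, Complex.norm_natCast]
          refine mul_le_mul_of_nonneg_left ?_ (Nat.cast_nonneg _)
          rw [norm_mul, norm_pow]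
          have h5 : ‖χ P‖ ^ (n / e) ≤ 1 := pow_le_one₀ (norm_nonneg _) (hχ P)
          have h6 : ‖∑ i, loc P i ^ (n / e)‖ ≤ r * W⁻¹ := by
            refine (norm_sum_le _ _).trans ((Finset.sum_le_sum (g := fun _ => W⁻¹) fun i _ => ?_).trans ?_)
            · rw [norm_pow]
              refine (pow_le_pow_left₀ (norm_nonneg _) (hloc P g1 g2 hP.2 i) _).trans (le_of_eq ?_)
              rw [g3, ← pow_mul, mul_assoc, Nat.mul_div_cancel' he.1, sqrt_rk]
            · rw [Finset.sum_const, card_univ, Fintype.card_fin, nsmul_eq_mul]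
          calc ‖χ P‖ ^ (n / e) * ‖∑ i, loc P i ^ (n / e)‖ ≤ 1 * (r * W⁻¹) :=
                mul_le_mul h5 h6 (norm_nonneg _) zero_le_one
            _ = _ := one_mul _
        refine (Finset.sum_le_sum h2).trans ?_
        rw [Finset.sum_const, nsmul_eq_mul]
        have h4 : (#(G e) : ℝ) ≤ #(IR k e) := by exact_mod_cast Finset.card_filter_le _ _
        calc (#(G e) : ℝ) * (e * (r * W⁻¹)) ≤ (#(IR k e) : ℝ) * (e * (r * W⁻¹)) :=
              mul_le_mul_of_nonneg_right h4 (by positivity)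
          _ = _ := by ring
      refine (Finset.sum_le_sum h1).trans ?_
      rw [← Finset.sum_mul]
      exact mul_le_mul_of_nonneg_right (prop_sum (by omega)) (by positivity)
    have e4 : ∑ i, (α i * ((rk k ^ (w + 1) : ℝ) : ℂ)) ^ n +
        ((n * rk k ^ n : ℝ) : ℂ) * ∑ P ∈ IR k n, tn w bad loc χ P =
        ((W * s : ℝ) : ℂ) * (-∑ e ∈ n.properDivisors, g e - ∑ j, β j ^ n) := by
      rw [e1, e2, ← hs, ← e3]
      ring
    rw [e4, norm_mul, Complex.norm_real, Real.norm_eq_abs, abs_of_nonneg (by positivity)]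
    have h5 : ‖-∑ e ∈ n.properDivisors, g e - ∑ j, β j ^ n‖ ≤ 2 * q ^ (n / 2) * (r * W⁻¹) + K * W⁻¹ := by
      refine (norm_sub_le _ _).trans ?_
      rw [norm_neg]
      exact add_le_add b3 b1
    have h6 : s * q ^ (n / 2) ≤ 1 := rk_q_half n
    calc W * s * ‖-∑ e ∈ n.properDivisors, g e - ∑ j, β j ^ n‖ ≤
        W * s * (2 * q ^ (n / 2) * (r * W⁻¹) + K * W⁻¹) :=
          mul_le_mul_of_nonneg_left h5 (by positivity)
      _ = K * s + 2 * r * (s * q ^ (n / 2)) := by
        field_simp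
        ring
      _ ≤ K * s + 2 * r * 1 := by
        have : 2 * (r : ℝ) * (s * q ^ (n / 2)) ≤ 2 * r * 1 :=
          mul_le_mul_of_nonneg_left h6 (by positivity)
        linarith
      _ = _ := by ring

end

/-- A system of local traces depending on the residue of one polynomial. -/
structure Sys1 {k : Type} [Field k] [Fintype k] (t : k[X] → k[X] → ℂ) (n₀ : ℝ) : Prop where
  per : ∀ P A B : k[X], P ∣ A - B → t P A = t P B
  bound : ∀ P : k[X], P.Monic → Irreducible P → ∀ A, ‖t P A‖ ≤ n₀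
  mean : ∀ P : k[X], P.Monic → Irreducible P → ∀ N : ℕ, P.natDegree ≤ N → ∀ ω : ℂ,
    mV N (fun v => (ω * t P v.1).re) = 0

/-- **The large generalized eigenspaces in families with one random polynomial.** -/
theorem mult_avg_one (n₀ : ℕ) (h3 : 3 ≤ n₀) {κ : ℝ} (hκ : 1 ≤ κ) :
    ∃ c C : ℝ, 0 < c ∧ 0 < C ∧ ∀ (k : Type) [Field k] [Fintype k],
      ∀ N : ℕ, 1 ≤ N → ∀ (t : k[X] → k[X] → ℂ), Sys1 t (n₀ : ℝ) → ∀ G : ℝ, 0 ≤ G → G ≤ 2 * n₀ →
      ∀ R : ℕ, 1 ≤ R → ∀ (T : Type) [Fintype T] (w : T → degreeLT k N) (_ : Function.Injective w)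
        (E : ∀ v : T, ED (fun P => t P (w v : k[X])) G (κ * N)),
        (∑ v : T, (#(bigIdx (E v) R) : ℝ)) ≤
          C * (R : ℝ) ^ (-(c * R)) * N * (Fintype.card k : ℝ) ^ N := by
  classical
  obtain ⟨c, C, hc, hC, H⟩ := mult_avg n₀ h3 hκ
  refine ⟨c, C, hc, hC, ?_⟩
  intro k _ _ N hN t ht G hG0 hG R hR T _ w hw E
  have : Finite (degreeLT k N) := finDeg k N
  let _ := Fintype.ofFinite (degreeLT k N)
  have hcard : (Fintype.card (degreeLT k N) : ℝ) = (Fintype.card k : ℝ) ^ N := by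
    rw [← Nat.card_eq_fintype_card, Nat.card_congr (degreeLTEquiv k N).toEquiv,
      Nat.card_eq_fintype_card, Fintype.card_fun, Fintype.card_fin]
    push_cast
    rfl
  have hq0 : (0 : ℝ) < (Fintype.card k : ℝ) ^ N := by
    have : (0 : ℝ) < Fintype.card k := by exact_mod_cast Fintype.card_pos
    positivity
  have h1 := H k N hN (fun P v => t P v.1) ⟨fun P v v' h _ => ht.per P _ _ h,
    fun P h1 h2 v => ht.bound P h1 h2 v.1, ht.mean⟩ G hG0 hG R hR (T × degreeLT k N)
    (fun v => (w v.1, v.2)) (by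
      rintro ⟨a, b⟩ ⟨a', b'⟩ h
      simp only [Prod.mk.injEq] at h ⊢
      exact ⟨hw h.1, h.2⟩) (fun v => E v.1)
  rw [Fintype.sum_prod_type] at h1
  simp only [Finset.sum_const, card_univ, nsmul_eq_mul] at h1
  rw [← Finset.mul_sum, hcard] at h1
  have h2 : (Fintype.card k : ℝ) ^ (2 * N) = (Fintype.card k : ℝ) ^ N * (Fintype.card k : ℝ) ^ N := by
    rw [two_mul, pow_add]
  rw [h2] at h1
  have h3 : (Fintype.card k : ℝ) ^ N * (∑ v : T, (#(bigIdx (E v) R) : ℝ)) ≤
      (Fintype.card k : ℝ) ^ N * (C * (R : ℝ) ^ (-(c * R)) * N * (Fintype.card k : ℝ) ^ N) := by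
    refine h1.trans (le_of_eq ?_)
    ring
  exact le_of_mul_le_mul_left h3 hq0

end Pool.Agent.J6H2.NP
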